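import Pool.Agent.Q63.RF.Fin
import Pool.Agent.Q63.RF.SysF
import Pool.Agent.Q63.RF.Stat
import Pool.Agent.Q151.RF.Meas
import Pool.Agent.Q151.RF.Pois
import Pool.Agent.Q208.RF.Fell
import Pool.Agent.Q208.RF.Lyap
import Pool.Agent.Q38.RF.Blk
import Pool.Agent.Q38.RF.Low
import Pool.Agent.Q38.RF.Up

/-!
# The speed is not monotone in invariant random rate fields on Coxeter groups
-/

set_option autoImplicit false

namespace Pool.Agent.Results.MP_34a06d_pr.SpeedNotMonotone

open MeasureTheory ProbabilityTheory Filter Topology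
open scoped ENNReal NNReal

variable {B W : Type} [Fintype B] [Group W] {M : CoxeterMatrix B}

/-- A rate field on the edges of the Cayley graph of a Coxeter system with the generators `s_i`,
`i` in the finite set `B`: `a x i` is the rate of the edge `{x, x s_i}`, so
`a (x s_i) i = a x i`. -/
def IsRate (cs : CoxeterSystem M W) (a : W → B → ℝ≥0) : Prop :=
  ∀ x i, a (x * cs.simple i) i = a x i

/-- The total rate of the edges at `x`. -/
def tot (a : W → B → ℝ≥0) (x : W) : ℝ≥0 := ∑ i, a x i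

/-- The expectation of `f (Z_t)` over the event that the walk started at `x` in the rate field `a`
makes exactly `n` jumps up to time `t`. The walk waits at `x` an exponential time with rate
`tot a x` and then crosses one of the edges at `x`, the edge `{x, x s_i}` with the probability
`a x i / tot a x`, so this is `exp (- tot a x * t) f x` for `n = 0`, and for `n + 1` (time `s` of
the first jump) the integral over `0 ≤ s ≤ t` of `exp (- tot a x * s)` times the sum over `i` of
`a x i` times the same quantity for `n` jumps, the time `t - s` and the starting point `x s_i`. -/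
noncomputable def jumpE (cs : CoxeterSystem M W) (a : W → B → ℝ≥0) (f : W → ℝ≥0∞) :
    ℕ → ℝ → W → ℝ≥0∞
  | 0, t, x => ENNReal.ofReal (Real.exp (-((tot a x : ℝ) * t))) * f x
  | n + 1, t, x => ∫⁻ s in Set.Icc (0 : ℝ) t,
      ENNReal.ofReal (Real.exp (-((tot a x : ℝ) * s))) *
        ∑ i, (a x i : ℝ≥0∞) * jumpE cs a f n (t - s) (x * cs.simple i)

/-- The expectation of `f (Z_t)` over the event of finitely many jumps up to time `t`, for the walk
started at `x` in the rate field `a`. -/
noncomputable def walkE (cs : CoxeterSystem M W) (a : W → B → ℝ≥0) (f : W → ℝ≥0∞) (t : ℝ) (x : W) :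
    ℝ≥0∞ := ∑' n, jumpE cs a f n t x

/-- The walk started at the identity makes, with probability one, finitely many jumps in every
bounded time interval. -/
def NonExplosive (cs : CoxeterSystem M W) (a : W → B → ℝ≥0) : Prop :=
  ∀ t : ℝ, 0 ≤ t → walkE cs a (fun _ => 1) t 1 = 1

variable {Ω : Type} [MeasurableSpace Ω]

/-- The annealed expectation of `|Z_t|`, the expectation over the field and the walk. -/
noncomputable def meanLen (cs : CoxeterSystem M W) (P : Measure Ω) (r : Ω → W → B → ℝ≥0) (t : ℝ) :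
    ℝ≥0∞ := ∫⁻ ω, walkE cs (r ω) (fun x => (cs.length x : ℝ≥0∞)) t 1 ∂P

/-- The random rate field `r` has the speed `σ`: the walk is almost surely non-explosive, and
`E |Z_t| / t` tends to `σ`. -/
def HasSpeed (cs : CoxeterSystem M W) (P : Measure Ω) (r : Ω → W → B → ℝ≥0) (σ : ℝ≥0∞) : Prop :=
  (∀ᵐ ω ∂P, NonExplosive cs (r ω)) ∧
    Tendsto (fun t : ℝ => meanLen cs P r t / ENNReal.ofReal t) atTop (𝓝 σ)

/-- A random rate field whose law is invariant under left multiplication: for every `g` the field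
`x ↦ r (g x)` has the same law as `r`. -/
def IsField (cs : CoxeterSystem M W) (P : Measure Ω) (r : Ω → W → B → ℝ≥0) : Prop :=
  (∀ ω, IsRate cs (r ω)) ∧ Measurable r ∧
    ∀ g : W, P.map (fun ω x i => r ω (g * x) i) = P.map r

theorem jumpE_eq (cs : CoxeterSystem M W) (a : W → B → ℝ≥0) (f : W → ℝ≥0∞) (n : ℕ) :
    ∀ (t : ℝ) (x : W), jumpE cs a f n t x = Q63.RF.jumpE cs a f n t x := by
  induction n with
  | zero => intro t x; rfl
  | succ n ih =>
    intro t x
    rw [jumpE, Q63.RF.jumpE]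
    simp only [ih]
    rfl

theorem walkE_eq (cs : CoxeterSystem M W) (a : W → B → ℝ≥0) (f : W → ℝ≥0∞) (t : ℝ) (x : W) :
    walkE cs a f t x = Q63.RF.walkE cs a f t x := by
  unfold walkE Q63.RF.walkE
  simp only [jumpE_eq]

theorem hasSpeed_iff (cs : CoxeterSystem M W) (P : Measure Ω) (r : Ω → W → B → ℝ≥0) (σ : ℝ≥0∞) :
    HasSpeed cs P r σ ↔ Q63.RF.HasSpeed cs P r σ := by
  unfold HasSpeed Q63.RF.HasSpeed meanLen Q63.RF.meanLen NonExplosive Q63.RF.NonExplosive
  simp only [walkE_eq]

/-- There are a Coxeter system and two random rate fields `r₁ ≤ r₂` on its Cayley graph, on a common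
probability space, such that the law of each field is invariant under left multiplication and the
speeds `σ₁`, `σ₂` of both fields are defined, with `σ₂ < σ₁ < ∞`. -/
theorem result : ∃ (B W Ω : Type) (_ : Fintype B) (_ : Group W) (_ : MeasurableSpace Ω)
    (M : CoxeterMatrix B) (cs : CoxeterSystem M W) (P : Measure Ω) (_ : IsProbabilityMeasure P)
    (r₁ r₂ : Ω → W → B → ℝ≥0) (σ₁ σ₂ : ℝ≥0∞),
    IsField cs P r₁ ∧ IsField cs P r₂ ∧ (∀ ω x i, r₁ ω x i ≤ r₂ ω x i) ∧
      HasSpeed cs P r₁ σ₁ ∧ HasSpeed cs P r₂ σ₂ ∧ σ₂ < σ₁ ∧ σ₁ ≠ ∞ := by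
  have hsub := Q63.RF.sub Q63.RF.stat
  have hsys := Q63.RF.sys Q151.RF.meas
  obtain ⟨B, W, Ω, iB, iW, iΩ, M, cs, P, iP, r₁, r₂, σ₁, σ₂, h1, h2, h3, h4, h5, h6, h7⟩ :=
    Q63.RF.fin_aux (Q63.RF.speed Q208.RF.Fell.fell Q151.RF.pois hsub) hsub Q63.RF.tree Q151.RF.meas hsys
      (Q38.RF.low Q208.RF.Lyap.lyap Q151.RF.meas) (Q38.RF.up Q38.RF.blk Q63.RF.stat Q151.RF.meas hsys)
      20 10000 rfl rfl
  exact ⟨B, W, Ω, iB, iW, iΩ, M, cs, P, iP, r₁, r₂, σ₁, σ₂, h1, h2, h3,
    (hasSpeed_iff cs P r₁ σ₁).mpr h4, (hasSpeed_iff cs P r₂ σ₂).mpr h5, h6, h7⟩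

end Pool.Agent.Results.MP_34a06d_pr.SpeedNotMonotone
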